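import Pool.Agent.Helper64_FR.Stmt
import Pool.Agent.Helper47_FR.UpB

/-!
# Definitions: vertex by vertex comparison with the one-body inequality (problem MP_3b0ba7_pr)
-/

open MeasureTheory Matrix Finset
open scoped ComplexConjugate

namespace Pool.Agent.UTR

open Pool.Agent.Helper64_FR

variable {n : ℕ}

/-- torus invariant vectors -/
def TInv (ρ : URep n) (f : ρ.Sp) : Prop :=
  ∀ i : Fin n, ∀ h ∈ UB ({i} : Finset (Fin n)), ρ.op h f = f

/-- vectors fixed by `U_B` -/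
def Fx (ρ : URep n) (B : Finset (Fin n)) (f : ρ.Sp) : Prop := ∀ h ∈ UB B, ρ.op h f = f

/-- `T_{ij} = E_{il} E_{lj}` in the derived representation `D` -/
noncomputable def Tz (ρ : URep n) (D : Matrix (Fin n) (Fin n) ℂ →ₗ[ℂ] (ρ.Sp →L[ℂ] ρ.Sp))
    (i j l : Fin n) : ρ.Sp →L[ℂ] ρ.Sp := D (EE i l) * D (EE l j)

/-- `K = ∑_{i ∈ S} E_{il} E_{li}` -/
noncomputable def Kz (ρ : URep n) (D : Matrix (Fin n) (Fin n) ℂ →ₗ[ℂ] (ρ.Sp →L[ℂ] ρ.Sp))
    (S : Finset (Fin n)) (l : Fin n) : ρ.Sp →L[ℂ] ρ.Sp := ∑ i ∈ S, Tz ρ D i i l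

/-- `∑_{i ∈ B} (y_i - ȳ_B)²` -/
noncomputable def vr (B : Finset (Fin n)) (y : Fin n → ℝ) : ℝ :=
  ∑ i ∈ B, y i ^ 2 - (∑ i ∈ B, y i) ^ 2 / B.card

/-- `∑_{i ∈ B} |z_i - z̄_B|²` -/
noncomputable def vc (B : Finset (Fin n)) (z : Fin n → ℂ) : ℝ :=
  ∑ i ∈ B, ‖z i‖ ^ 2 - ‖∑ i ∈ B, z i‖ ^ 2 / B.card

/-- the one-body inequality for the trace of the hypergraph on `S`: `μ` is at most the smallest
nonzero eigenvalue of the hypergraph Laplacian of the trace `B ↦ B ∩ S`, which is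
`λ_min(Γ|_S, ρ_{(1,0,...,0,-1)})` for `U(|S|)` -/
def OneOn (w : Finset (Fin n) → ℝ) (S : Finset (Fin n)) (μ : ℝ) : Prop :=
  ∀ y : Fin n → ℝ, μ * vr S y ≤ ∑ B : Finset (Fin n), w B * vr (B ∩ S) y

/-- the gap inequality for the trace of the hypergraph on `S`, on torus invariant vectors -/
def GapOn (ρ : URep n) (w : Finset (Fin n) → ℝ) (S : Finset (Fin n)) (μ : ℝ) : Prop :=
  ∀ f : ρ.Sp, TInv ρ f → μ * (‖f‖ ^ 2 - ‖ρ.P S f‖ ^ 2) ≤
    ∑ B : Finset (Fin n), w B * (‖f‖ ^ 2 - ‖ρ.P (B ∩ S) f‖ ^ 2)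

/-- The frame of the step `S → insert l S`: for every `t < m` the vectors `a t i`, `i ∈ S`, have the
Gram matrix of `e_i - e_l` (up to the factor `1 / (N (N - 1))`, `N = |S| + 1`). -/
structure Frame (ρ : URep n) (S : Finset (Fin n)) (l : Fin n) where
  /-- number of families -/
  m : ℕ
  /-- the vectors -/
  a : Fin m → Fin n → ρ.Sp
  tinv : ∀ t, ∀ i ∈ S, TInv ρ (a t i)
  gram : ∀ t s, ∀ i ∈ S, ∀ j ∈ S, inner ℂ (a t i) (a s j) =
    if t = s then (if i = j then (2 : ℂ) else 1) / (((S.card : ℂ) + 1) * S.card) else 0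
  eqv : ∀ t, ∀ B, B ⊆ S → ∀ i ∈ S, ρ.P B (a t i) =
    if i ∈ B then (1 / (B.card : ℂ)) • ∑ j ∈ B, a t j else a t i
  orth : ∀ t, ∀ B, B ⊆ insert l S → l ∈ B → ∀ i ∈ B, i ≠ l → ∀ f : ρ.Sp, TInv ρ f → Fx ρ B f →
    inner ℂ (a t i) f = 0
  tot : ∀ g : ρ.Sp, TInv ρ g → (∀ t, ∀ i ∈ S, inner ℂ (a t i) g = 0) →
    Fx ρ (insert l S) (ρ.P S g)

/-- the one-body vectors of `f` with respect to a frame (`0` at `l` and outside of `S`) -/
noncomputable def zf {ρ : URep n} {S : Finset (Fin n)} {l : Fin n} (F : Frame ρ S l)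
    (t : Fin F.m) (f : ρ.Sp) (i : Fin n) : ℂ :=
  if i ∈ S then (Real.sqrt (((S.card : ℝ) + 1) * S.card) : ℂ) * inner ℂ (F.a t i) f else 0

/-- `p` is the projection of `q` onto the span of the `a t i`, `i ∈ B` -/
def IsPr {ρ : URep n} {S : Finset (Fin n)} {l : Fin n} (F : Frame ρ S l)
    (B : Finset (Fin n)) (q p : ρ.Sp) : Prop :=
  (∃ c : Fin F.m → Fin n → ℂ, p = ∑ t, ∑ i ∈ B, c t i • F.a t i) ∧
    ∀ t, ∀ i ∈ B, inner ℂ (F.a t i) (q - p) = 0

/-- chains of vertex sets along which the one-body inequality holds with the constant `μ` -/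
inductive Chain (w : Finset (Fin n) → ℝ) (μ : ℝ) : Finset (Fin n) → Prop
  | base (i : Fin n) : Chain w μ {i}
  | step (S : Finset (Fin n)) (l : Fin n) : l ∉ S → Chain w μ S → OneOn w (insert l S) μ →
      Chain w μ (insert l S)

/-- in the trace on `insert l S` the vertex `l` lies in at most one block with at least two
elements -/
def Leaf (w : Finset (Fin n) → ℝ) (S : Finset (Fin n)) (l : Fin n) : Prop :=
  ∃ B₀ : Finset (Fin n), ∀ B : Finset (Fin n), w B ≠ 0 → l ∈ B →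
    B ∩ insert l S = {l} ∨ B ∩ insert l S = B₀

/-- hypertrees: every vertex in turn is a leaf of the trace on the previous ones and itself -/
inductive Peel (w : Finset (Fin n) → ℝ) : Finset (Fin n) → Prop
  | base (i : Fin n) : Peel w {i}
  | step (S : Finset (Fin n)) (l : Fin n) : l ∉ S → Peel w S → Leaf w S l → Peel w (insert l S)

end Pool.Agent.UTR
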