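import Pool.Agent.UTR.Defs

/-!
# Statements: the adjoint representation dominates ALL irreducible representations for every weighted
tree (hypertree) (problem MP_3b0ba7_pr)

THEOREM. `Γ` a weighted hypergraph on `[n]`, `S_1 ⊂ S_2 ⊂ ... ⊂ S_n = [n]` vertex sets, `|S_m| = m`. If
the one-body inequality (that is, the eigenvalue of the adjoint representation of `U(m)`) holds with
the constant `μ` for all traces `Γ|_{S_m}`, `m ≥ 2`, then `λ_min(Γ, ρ) ≥ μ` for every irreducible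
nontrivial `ρ`. For trees all one-body eigenvalues of the traces are at least the one of `Γ`.

`D` is the derived representation (`IsDer`, existence `Pool.Agent.Helper64_FR.H47.der` in
Helper47_FR/Der.lean), `E_ij = D (EE i j)`. Facts (FIX.lean, DERP.lean): `ρ.P B` is the orthogonal
projection onto the vectors fixed by `U_B` (`Fx ρ B`), `E_ij f = 0` for `f` fixed by `U_B`, `i, j ∈ B`;
in particular `E_ii f = 0` for torus invariant `f`.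
Write `R` for the vectors that are torus invariant and fixed by `U_S`; `l ∉ S`, `N = |S| + 1`.
-/

open MeasureTheory Matrix Finset
open scoped ComplexConjugate

namespace Pool.Agent.UTR

open Pool.Agent.Helper64_FR

/-- GEN. If `E_ij v = 0` for all `i, j ∈ S` then `v` is fixed by `U_S`. By `IsDer.exp_eq` it is fixed by
`exp X` for every skew-hermitian `X` supported on `S × S` (`D X v = 0`, so `exp (D X) v = v`). Every
element of `U_S` is a product of such exponentials: (a) directly by the spectral theorem, or (b) by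
induction on `S`: let `b ∈ S`, `h ∈ U_S`, `u = h e_b`; as in the proof of TRN (Helper39_BSE/TRN.lean)
there are a phase matrix `diag (φ on S, 1 off S) = exp (i θ 1_S)` and a reflection
`1 - 2 w w* = exp (i π w w*)` (`|w| = 1`, `w` supported on `S`; `w w*` is a projection, so
`exp (iπ w w*) = 1 + (e^{iπ} - 1) w w*`) whose product `A` satisfies `A e_b = u`; then
`A⁻¹ h` is in `U_{S - b}`. (c) or: `1 - h` normal; or the Cayley transform. Any proof is fine. -/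
def GENStmt : Prop := ∀ (n : ℕ) (ρ : URep n)
  (D : Matrix (Fin n) (Fin n) ℂ →ₗ[ℂ] (ρ.Sp →L[ℂ] ρ.Sp)), IsDer ρ D →
  ∀ (S : Finset (Fin n)) (v : ρ.Sp), (∀ i ∈ S, ∀ j ∈ S, D (EE i j) v = 0) → Fx ρ S v

/-- GR1. For `i ≠ j` in `S` and `v, v' ∈ R`: `⟨T_ij v, T_ij v'⟩ = ⟨T_ii v, T_jj v'⟩`, `T_ij = E_il E_lj`.
`E_ab* = E_ba`, `[E_ab, E_cd] = δ_bc E_ad - δ_da E_cb`. Let
`X = ⟨v, E_il E_jl E_li E_lj v'⟩`.
Right side: `⟨v, E_il E_li E_jl E_lj v'⟩`, `E_li E_jl = E_jl E_li - E_ji`, and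
`E_ji E_lj v' = E_lj E_ji v' - E_li v' = -E_li v'`; so it is `X + ⟨v, E_il E_li v'⟩`.
Left side: `⟨v, E_jl E_li E_il E_lj v'⟩`, `E_li E_il = E_il E_li + E_ll - E_ii`,
`E_ll E_lj v' = E_lj v'`, `E_ii E_lj v' = 0`, `E_jl E_il = E_il E_jl`; so it is
`X + ⟨v, E_jl E_lj v'⟩`.
The permutation matrix `s` of the transposition `(i j)` lies in `U_S`, fixes `v, v'` and conjugates
`E_il E_li` to `E_jl E_lj` (`IsDer.conj_eq`), so the two second terms agree. -/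
def GR1Stmt : Prop := ∀ (n : ℕ) (ρ : URep n)
  (D : Matrix (Fin n) (Fin n) ℂ →ₗ[ℂ] (ρ.Sp →L[ℂ] ρ.Sp)), IsDer ρ D →
  ∀ (S : Finset (Fin n)) (l : Fin n), l ∉ S → ∀ v v' : ρ.Sp, TInv ρ v → TInv ρ v' →
  Fx ρ S v → Fx ρ S v' → ∀ i ∈ S, ∀ j ∈ S, i ≠ j →
  (inner ℂ (Tz ρ D i j l v) (Tz ρ D i j l v') : ℂ) = inner ℂ (Tz ρ D i i l v) (Tz ρ D j j l v')

/-- GR2. For `i ≠ j` in `S`: `⟨T_ii v, T_ii v'⟩ = ⟨T_ij v, T_ij v'⟩ + ⟨T_ii v, T_jj v'⟩`. Let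
`h ∈ U_S` be the rotation `h e_i = (e_i + e_j)/√2`, `h e_j = (-e_i + e_j)/√2` (or the reflection
`rfU` of Helper64_FR/Rot.lean with parameter `1`: any unitary in the plane with all entries of modulus
`1/√2`). By `conj_eq`, `ρ(h) T_ii v = ∑_{k,m} h_ki conj(h_mi) T_km v` (`v` is fixed by `h`), that is
`1/2 (T_ii + T_ij + T_ji + T_jj) v` (for the rotation). Vectors of different torus weight are
orthogonal: `T_ij v` has weight `e_i - e_j`, `T_ji v` weight `e_j - e_i`, `T_ii v`, `T_jj v` weight `0`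
(apply `ρ(d)` with `d = diag(ζ at i)`, `ζ = i`). So
`⟨T_ii v, T_ii v'⟩ = 1/4 (⟨ii,ii⟩ + ⟨jj,jj⟩ + ⟨ii,jj⟩ + ⟨jj,ii⟩ + ⟨ij,ij⟩ + ⟨ji,ji⟩)`, and the transposition
`(i j) ∈ U_S` shows `⟨jj,jj⟩ = ⟨ii,ii⟩`, `⟨jj,ii⟩ = ⟨ii,jj⟩`, `⟨ji,ji⟩ = ⟨ij,ij⟩`. -/
def GR2Stmt : Prop := ∀ (n : ℕ) (ρ : URep n)
  (D : Matrix (Fin n) (Fin n) ℂ →ₗ[ℂ] (ρ.Sp →L[ℂ] ρ.Sp)), IsDer ρ D →
  ∀ (S : Finset (Fin n)) (l : Fin n), l ∉ S → ∀ v v' : ρ.Sp, TInv ρ v → TInv ρ v' →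
  Fx ρ S v → Fx ρ S v' → ∀ i ∈ S, ∀ j ∈ S, i ≠ j →
  (inner ℂ (Tz ρ D i i l v) (Tz ρ D i i l v') : ℂ) =
    inner ℂ (Tz ρ D i j l v) (Tz ρ D i j l v') + inner ℂ (Tz ρ D i i l v) (Tz ρ D j j l v')

/-- GRM. From GR1, GR2: `⟨T_ii v, T_ii v'⟩ = 2 ⟨T_ii v, T_jj v'⟩ =: q` for all `i ≠ j`; `q` does not
depend on `i` (transposition in `U_S`). Sum over `i, j ∈ S`, `s = |S|`:
`⟨K v, K v'⟩ = s q + s (s-1) q/2 = q s (s+1)/2`. (Also for `s = 1`.) -/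
def GRMStmt : Prop := ∀ (n : ℕ) (ρ : URep n)
  (D : Matrix (Fin n) (Fin n) ℂ →ₗ[ℂ] (ρ.Sp →L[ℂ] ρ.Sp)), IsDer ρ D →
  ∀ (S : Finset (Fin n)) (l : Fin n), l ∉ S → ∀ v v' : ρ.Sp, TInv ρ v → TInv ρ v' →
  Fx ρ S v → Fx ρ S v' → ∀ i ∈ S, ∀ j ∈ S,
  (inner ℂ (Tz ρ D i i l v) (Tz ρ D j j l v') : ℂ) =
    (if i = j then 2 else 1) / (((S.card : ℂ) + 1) * S.card) *
      inner ℂ (Kz ρ D S l v) (Kz ρ D S l v')

/-- EQV. `v ∈ R`, `B ⊆ S`. (1) `T_ii v` is torus invariant (`conj_eq` for a diagonal matrix).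
(2) `i ∈ S`, `i ∉ B`: `h ∈ U_B` fixes `e_i`, `e_l`, so `ρ(h) T_ii v = T_ii ρ(h) v = T_ii v`, and
`ρ.P B (T_ii v) = T_ii v`. (3) `K_B v = ∑_{j∈B} T_jj v` is fixed by `U_B`:
`ρ(h) ∑_{j∈B} E_jl E_lj v = ∑_{k,m} (∑_j h_kj conj(h_mj)) E_kl E_lm v = ∑_{k∈B} E_kl E_lk v`. And for
`i, j ∈ B`, `T_jj v = ρ(s) T_ii v`, `s = (i j) ∈ U_B`, so `ρ.P B (T_jj v) = ρ.P B (T_ii v)`
(`P_B ρ(s) = P_B`). Hence `|B| ρ.P B (T_ii v) = ρ.P B (K_B v) = K_B v`. -/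
def EQVStmt : Prop := ∀ (n : ℕ) (ρ : URep n)
  (D : Matrix (Fin n) (Fin n) ℂ →ₗ[ℂ] (ρ.Sp →L[ℂ] ρ.Sp)), IsDer ρ D →
  ∀ (S : Finset (Fin n)) (l : Fin n), l ∉ S → ∀ v : ρ.Sp, TInv ρ v → Fx ρ S v →
  (∀ i ∈ S, TInv ρ (Tz ρ D i i l v)) ∧
  ∀ B, B ⊆ S → ∀ i ∈ S, ρ.P B (Tz ρ D i i l v) =
    if i ∈ B then (1 / (B.card : ℂ)) • ∑ j ∈ B, Tz ρ D j j l v else Tz ρ D i i l v

/-- KSY. `K* = K`; `K` maps `R` to `R` (EQV (3) with `B = S`, or EQV itself with `B = S`: the sum of the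
`T_ii v` is fixed by `P_S`); and `v ∈ R`, `K v = 0` imply that `v` is fixed by `U_{S ∪ l}`:
`0 = ⟨v, K v⟩ = ∑_{i∈S} |E_li v|²`, so `E_li v = 0`, and
`|E_il v|² = ⟨v, (E_il E_li + E_ll - E_ii) v⟩ = 0`; `E_ij v = 0` for `i, j ∈ S` (DERP), `E_ll v = 0`; GEN. -/
def KSYStmt : Prop := ∀ (n : ℕ) (ρ : URep n)
  (D : Matrix (Fin n) (Fin n) ℂ →ₗ[ℂ] (ρ.Sp →L[ℂ] ρ.Sp)), IsDer ρ D →
  ∀ (S : Finset (Fin n)) (l : Fin n), l ∉ S →
  star (Kz ρ D S l) = Kz ρ D S l ∧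
  ∀ v : ρ.Sp, TInv ρ v → Fx ρ S v →
    (TInv ρ (Kz ρ D S l v) ∧ Fx ρ S (Kz ρ D S l v)) ∧
    (Kz ρ D S l v = 0 → Fx ρ (insert l S) v)

/-- FRM. `K` restricted to the finite dimensional space `R` is symmetric (KSY). Let `u_t`, `t < m`, be an
orthonormal basis of its range `K(R)`, `u_t = K v_t`, `v_t ∈ R`, and `a t i = T_ii v_t`. `tinv`, `eqv`:
EQV; `gram`: GRM; `orth`: for `i ∈ B`, `i ≠ l`, `f` fixed by `U_B`:
`⟨T_ii v_t, f⟩ = ⟨v_t, E_il E_li f⟩ = 0` (DERP, `i, l ∈ B`). `tot`: let `r = P_S g ∈ R` (`P_S` commutes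
with the torus, see FIX.lean: for `h ∈ U_{i}`, `i ∈ S`, `ρ(h) P_S = P_S`; for `i ∉ S` the groups commute;
or: `⟨·,·⟩` characterisation). For every `t`: `⟨u_t, r⟩ = ⟨u_t, g⟩` (`u_t` is fixed by `U_S`)
`= ∑_{i∈S} ⟨a t i, g⟩ = 0`. So `r ⟂ K(R)`, hence `⟨K r, K r⟩ = ⟨K (K r), r⟩ = 0`, `K r = 0`, KSY. -/
def FRMStmt : Prop := ∀ (n : ℕ) (ρ : URep n) (S : Finset (Fin n)) (l : Fin n), l ∉ S →
  S.Nonempty → Nonempty (Frame ρ S l)

/-- PRJ. For `B ⊆ S`, `b = |B|`, `q` any vector: put `α_ti = ⟨a t i, q⟩`, `A_t = ∑_{i∈B} α_ti`,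
`p = N(N-1) ∑_t ∑_{i∈B} (α_ti - A_t/(b+1)) a t i`, `N(N-1) = (|S|+1)|S|`. By `gram`:
`⟨a t j, p⟩ = α_tj` for `j ∈ B`; `|p|² = ⟨p, q⟩ = N(N-1) ∑_t (∑_i |α_ti|² - |A_t|²/(b+1))
= ∑_t vc (insert l B) (zf F t q)` (`zf` vanishes at `l ∉ S`), and `|q|² = |p|² + |q-p|²`. -/
def PRJStmt : Prop := ∀ (n : ℕ) (ρ : URep n) (S : Finset (Fin n)) (l : Fin n), l ∉ S →
  ∀ (F : Frame ρ S l) (B : Finset (Fin n)), B ⊆ S → ∀ q : ρ.Sp, ∃ p : ρ.Sp, IsPr F B q p ∧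
    ‖q‖ ^ 2 = ‖q - p‖ ^ 2 + ∑ t, vc (insert l B) (zf F t q)

/-- ENB (block inequality). `f` torus invariant, `p` its projection onto the span of all `a t i`,
`i ∈ S`, `g = f - p`; `B ⊆ insert l S`, `B' = B.erase l ⊆ S`, `b = |B|`.
(1) `P_{B'}` maps the span of the frame into itself (`eqv`) and is self-adjoint, so
`⟨a t i, P_{B'} g⟩ = 0` and `P_{B'} p ⟂ g`, `P_{B'} g ⟂ p`: `|P_{B'} f|² = |P_{B'} p|² + |P_{B'} g|²`.
(2) `h = P_{B'} f` has `⟨a t i, h⟩ = ⟨P_{B'} a t i, f⟩`: so `zf F t h` is `zf F t f` outside of `B'` and the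
mean value `ζ_t` of `zf F t f` over `B'` on `B'`. With PRJ (for `B = S`):
`|p|² = ∑_t vc (insert l S) (zf F t f)`, `|P_{B'} p|² = ∑_t vc (insert l S) (zf F t h)`, and
`|p|² - |P_{B'} p|² = ∑_t vc B' (zf F t f)`. Hence
`|f|² - |P_{B'} f|² = ∑_t vc B' (zf F t f) + |g|² - |P_{B'} g|²`, the claim if `l ∉ B`.
(3) `l ∈ B`: `U_{B'} ≤ U_B`, so `P_B f = P_B h`, `|f|² - |P_B f|² = (|f|² - |P_{B'} f|²) + |h - P_B h|²`.
`q = h - P_B h`: for `i ∈ B'`, `⟨a t i, P_B h⟩ = 0` (`orth`), so `zf F t q i = ζ_t` for `i ∈ B'`; by PRJ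
(for `B'`) `|q|² ≥ ∑_t vc (insert l B') (zf F t q) = ∑_t |ζ_t|² (b-1)/b`, and
`vc B (zf F t f) = vc B' (zf F t f) + |ζ_t|² (b-1)/b` because `zf` vanishes at `l`. -/
def ENBStmt : Prop := ∀ (n : ℕ) (ρ : URep n) (S : Finset (Fin n)) (l : Fin n), l ∉ S →
  ∀ (F : Frame ρ S l) (f p : ρ.Sp), TInv ρ f → IsPr F S f p →
  ∀ B : Finset (Fin n), B ⊆ insert l S →
    ∑ t, vc B (zf F t f) + (‖f - p‖ ^ 2 - ‖ρ.P (B.erase l) (f - p)‖ ^ 2) ≤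
      ‖f‖ ^ 2 - ‖ρ.P B f‖ ^ 2

/-- STP (the step). Let `S' = insert l S`. For general `f` put `f' = f - P_{S'} f`; for `B ⊆ S'`
`P_B P_{S'} = P_{S'}`, so `|f|² - |P_B f|² = |f'|² - |P_B f'|²`, and `f'` is torus invariant with
`P_{S'} f' = 0`. Take `p` from PRJ (`B = S`), `g = f' - p`; `g` is torus invariant (`tinv`), and
`P_S g` is fixed by `U_{S'}` (`tot`), so `P_S g = P_{S'} P_S g = P_{S'} g`; moreover `P_{S'} f' = 0` and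
`⟨P_{S'} x, a t i⟩ = 0` (`orth` with `B = S'`) gives `P_{S'} p = 0` (`P_{S'}` is self-adjoint); so
`P_S g = 0`. By ENB for `B ∩ S'` (`(B ∩ S').erase l = B ∩ S`), GapOn for `g`, and OneOn for the real and
imaginary parts of `zf F t f'` (`vc z = vr (Re z) + vr (Im z)`):
`∑_B w_B (|f'|² - |P_{B∩S'} f'|²) ≥ ∑_t ∑_B w_B vc (B∩S') (zf F t f') + ∑_B w_B (|g|² - |P_{B∩S} g|²)
≥ μ ∑_t vc S' (zf F t f') + μ |g|² = μ |f'|²` (PRJ). -/
def STPStmt : Prop := ∀ (n : ℕ) (ρ : URep n) (S : Finset (Fin n)) (l : Fin n), l ∉ S →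
  ∀ (F : Frame ρ S l) (w : Finset (Fin n) → ℝ), (∀ B, 0 ≤ w B) → ∀ μ : ℝ,
  GapOn ρ w S μ → OneOn w (insert l S) μ → GapOn ρ w (insert l S) μ

/-- CHN. Induction on the chain (FRM, STP). Base `{i}`: `P_{i} f = f`, and
`|f|² - |P_B f|² ≥ 0`. -/
def CHNStmt : Prop := ∀ (n : ℕ) (ρ : URep n) (w : Finset (Fin n) → ℝ), (∀ B, 0 ≤ w B) →
  ∀ (μ : ℝ) (S : Finset (Fin n)), Chain w μ S → GapOn ρ w S μ

/-- FIN. Let `x` be an eigenvalue, `v` an eigenvector. The last step of the chain gives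
`OneOn w univ μ`, which is `OneBody w μ` of BSE (`∑_i (dv B y i)² = vr B y`, see
Helper85_BSE/DVB.lean); by WTS (Pool.Agent.BSE.H81.wts) `μ ≤ x` or `v` is torus invariant. In the second
case `P_univ v = 0`: `ρ.P univ v` spans an invariant subspace of trivial type; since `ρ` is irreducible
and nontrivial it is zero. So `μ |v|² ≤ ∑_B w_B (|v|² - |P_B v|²) = ⟨v, L v⟩ = x |v|²` (CHN). The set of
eigenvalues is nonempty (`LOW.eig_nonempty`), `le_csInf`. -/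
def FINStmt : Prop := ∀ (n : ℕ), 2 ≤ n → ∀ (w : Finset (Fin n) → ℝ), (∀ B, 0 ≤ w B) →
  ∀ μ : ℝ, Chain w μ Finset.univ → ∀ ρ : URep n, ρ.Irred → (¬ ∀ g : UU n, ρ.mat g = 1) →
  μ ≤ ρ.lamMin w

/-- ONU. `OneOn w univ (α.lamMin w)` and `0 ≤ α.lamMin w` for the adjoint representation
(Pool.Agent.BSE.H59.one, Helper85_BSE/DVB.lean; the Laplacian is positive semidefinite, LOW.lean). -/
def ONUStmt : Prop := ∀ (n : ℕ), 2 ≤ n → ∀ (α : URep n), α.IsAdjoint →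
  ∀ w : Finset (Fin n) → ℝ, (∀ B, 0 ≤ w B) →
  OneOn w Finset.univ (α.lamMin w) ∧ 0 ≤ α.lamMin w

/-- LEF. Given `y`, let `z = y` except at `l`; `B₀` as in `Leaf`; `z_l` = mean of `y` over
`B₀ ∩ S` (any value if it is empty). For every `B` with `w B ≠ 0`: `vr (B ∩ insert l S) z =
vr (B ∩ S) y` (if `l ∉ B` clear; if the trace is `{l}` both are `0`; if the trace is `B₀` (so
`l ∈ B₀`, `B ∩ S = B₀.erase l`) adding the mean value does not change the variance sum). And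
`vr (insert l S) z ≥ vr S y`. -/
def LEFStmt : Prop := ∀ (n : ℕ) (w : Finset (Fin n) → ℝ) (S : Finset (Fin n)) (l : Fin n), l ∉ S →
  Leaf w S l → ∀ μ : ℝ, 0 ≤ μ → OneOn w (insert l S) μ → OneOn w S μ

/-- PEL. By induction on `Peel w S`: `Peel w S → OneOn w S μ → Chain w μ S` (LEF). -/
def PELStmt : Prop := ∀ (n : ℕ) (w : Finset (Fin n) → ℝ) (μ : ℝ), 0 ≤ μ →
  ∀ S : Finset (Fin n), Peel w S → OneOn w S μ → Chain w μ S

/-- TRE. Forests are peelable. By induction on `|S|`, for every nonempty `S`: `Peel w S`. The induced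
subgraph on `S` is acyclic, so it has a vertex `l` with at most one neighbour in `S` (a finite acyclic
graph with at least one edge has a leaf: end of a longest path; Mathlib may have
`SimpleGraph.IsTree` leaf lemmas); `S' = S.erase l`, `B₀ = {l, neighbour}`. -/
def TREStmt : Prop := ∀ (n : ℕ) (G : SimpleGraph (Fin n)), G.IsAcyclic →
  ∀ w : Finset (Fin n) → ℝ, (∀ B, w B ≠ 0 → 2 ≤ B.card → ∃ i j, G.Adj i j ∧ B = {i, j}) →
  ∀ S : Finset (Fin n), S.Nonempty → Peel w S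

end Pool.Agent.UTR
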